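import Pool.Agent.Q208.TC.Main

/-!
# MP_4e4764_co: every bipartite temporal graph of grow pace 1 has a temporal 4-colouring

A temporal graph is a finite sequence of snapshots on one vertex set.  If consecutive snapshots
differ by at most one added and at most one removed edge and every snapshot is bipartite, then
there is a temporal colouring with four colours.
-/

namespace Pool.Agent.Results.MP_4e4764_co.TemporalFourColouring

/-- Grow pace 1: between consecutive snapshots at most one edge is added and at most one edge is
removed. -/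
def GrowPaceOne {V : Type*} {T : ℕ} (G : Fin T → SimpleGraph V) : Prop :=
  ∀ i j : Fin T, (j : ℕ) = i + 1 →
    ((G j).edgeSet \ (G i).edgeSet).encard ≤ 1 ∧ ((G i).edgeSet \ (G j).edgeSet).encard ≤ 1

/-- A temporal `k`-colouring: every `f j` is a proper colouring of the snapshot `G j`, and for
consecutive times `i`, `j = i + 1` the colourings are compatible: for every edge `x y` of
`G i ∪ G j` and all `a, b` in `{i, j}` the colours `f a x` and `f b y` are different. -/
def IsTemporalColouring {V : Type*} {T k : ℕ} (G : Fin T → SimpleGraph V)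
    (f : Fin T → V → Fin k) : Prop :=
  (∀ j x y, (G j).Adj x y → f j x ≠ f j y) ∧
  ∀ i j : Fin T, (j : ℕ) = i + 1 → ∀ x y, (G i ⊔ G j).Adj x y →
    ∀ a b : Fin T, (a = i ∨ a = j) → (b = i ∨ b = j) → f a x ≠ f b y

/-- The temporal chromatic number: the least `k` for which a temporal `k`-colouring exists. -/
noncomputable def temporalChromaticNumber {V : Type*} {T : ℕ} (G : Fin T → SimpleGraph V) : ℕ :=
  sInf {k : ℕ | ∃ f : Fin T → V → Fin k, IsTemporalColouring G f}

theorem fin2_ne {a b : Fin 2} (h : a ≠ b) : decide (a = 0) ≠ decide (b = 0) := by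
  revert a b
  decide

open Pool.Agent.Q208.TC in
theorem swap_of {V : Type*} {G H : SimpleGraph V} (h1 : (H.edgeSet \ G.edgeSet).encard ≤ 1)
    (h2 : (G.edgeSet \ H.edgeSet).encard ≤ 1) (hb : H.IsBipartite) : Swap G H := by
  refine ⟨?_, ?_, ?_⟩
  · intro x y x' y' a1 a2 a3 a4
    rw [Set.encard_le_one_iff] at h1
    have := h1 s(x, y) s(x', y') ⟨a1, a2⟩ ⟨a3, a4⟩
    rwa [Sym2.eq_iff] at this
  · intro x y x' y' a1 a2 a3 a4
    rw [Set.encard_le_one_iff] at h2
    have := h2 s(x, y) s(x', y') ⟨a1, a2⟩ ⟨a3, a4⟩
    rwa [Sym2.eq_iff] at this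
  · obtain ⟨C⟩ := hb
    refine ⟨fun z => decide (C z = 0), ?_⟩
    intro x y hxy
    exact fin2_ne (C.valid hxy)

/-- **Main result.** Every temporal graph of grow pace 1 all of whose snapshots are bipartite has
a temporal 4-colouring; in particular its temporal chromatic number is at most 4. -/
theorem result {V : Type*} {T : ℕ} (G : Fin T → SimpleGraph V) (hg : GrowPaceOne G)
    (hb : ∀ j, (G j).IsBipartite) :
    (∃ f : Fin T → V → Fin 4, IsTemporalColouring G f) ∧ temporalChromaticNumber G ≤ 4 := by
  have main : ∃ f : Fin T → V → Fin 4, IsTemporalColouring G f := by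
    rcases Nat.eq_zero_or_pos T with hT | hT
    · subst hT
      exact ⟨fun j => j.elim0, fun j => j.elim0, fun j => j.elim0⟩
    · have hlt : ∀ j : ℕ, min j (T - 1) < T := fun j => by omega
      obtain ⟨f, hf⟩ := Pool.Agent.Q208.TC.main (fun j : ℕ => G ⟨min j (T - 1), hlt j⟩)
        (by
          obtain ⟨C⟩ := hb ⟨min 0 (T - 1), hlt 0⟩
          refine ⟨fun z => decide (C z = 0), ?_⟩
          intro x y hxy
          exact fin2_ne (C.valid hxy))
        (by
          intro j
          by_cases hj : j + 1 < T
          · have h1 := hg ⟨min j (T - 1), hlt j⟩ ⟨min (j + 1) (T - 1), hlt (j + 1)⟩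
              (by
                show min (j + 1) (T - 1) = min j (T - 1) + 1
                omega)
            exact swap_of h1.1 h1.2 (hb _)
          · have h1 : (⟨min j (T - 1), hlt j⟩ : Fin T) = ⟨min (j + 1) (T - 1), hlt (j + 1)⟩ := by
              rw [Fin.mk.injEq]
              omega
            show Pool.Agent.Q208.TC.Swap (G ⟨min j (T - 1), hlt j⟩)
              (G ⟨min (j + 1) (T - 1), hlt (j + 1)⟩)
            rw [h1]
            exact swap_of (by simp) (by simp) (hb _))
      let e : Bool × Bool ≃ Fin 4 := Fintype.equivFinOfCardEq (by decide)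
      have hmin : ∀ j : Fin T, (⟨min (j : ℕ) (T - 1), hlt j⟩ : Fin T) = j := by
        intro j
        apply Fin.ext
        show min (j : ℕ) (T - 1) = j
        have := j.2
        omega
      refine ⟨fun j z => e (f j z), ?_, ?_⟩
      · intro j x y hxy heq
        have h1 : (G ⟨min (j : ℕ) (T - 1), hlt j⟩ ⊔
            G ⟨min ((j : ℕ) + 1) (T - 1), hlt (j + 1)⟩).Adj x y := by
          left
          rw [hmin j]
          exact hxy
        exact hf j x y h1 j j (Or.inl rfl) (Or.inl rfl) (e.injective heq)
      · intro i j hij x y hxy a b ha hb' heq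
        have h2 : (⟨min ((i : ℕ) + 1) (T - 1), hlt (i + 1)⟩ : Fin T) = j := by
          apply Fin.ext
          show min ((i : ℕ) + 1) (T - 1) = j
          have := j.2
          omega
        have h1 : (G ⟨min (i : ℕ) (T - 1), hlt i⟩ ⊔
            G ⟨min ((i : ℕ) + 1) (T - 1), hlt (i + 1)⟩).Adj x y := by
          rw [hmin i, h2]
          exact hxy
        have ha' : (a : ℕ) = i ∨ (a : ℕ) = i + 1 := by
          rcases ha with h | h
          · left
            rw [h]
          · right
            rw [h, hij]
        have hb'' : (b : ℕ) = i ∨ (b : ℕ) = i + 1 := by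
          rcases hb' with h | h
          · left
            rw [h]
          · right
            rw [h, hij]
        exact hf i x y h1 a b ha' hb'' (e.injective heq)
  exact ⟨main, Nat.sInf_le main⟩

end Pool.Agent.Results.MP_4e4764_co.TemporalFourColouring
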